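import Pool.Agent.H95.HC.Main

/-!
# The Mumford-Tate conjecture for `H^2` and coverings of affine spaces

Let `k` be a field finitely generated over `ℚ`, with an embedding in `ℂ`, and `ℓ` a prime number. Let `M`
be the category of motives over `k` in the sense of André, a semisimple abelian category with Tate twists
`N ↦ N(a)`, and let `w₀ : M ⥤ M` be the functor `N ↦ Gr^W_0 N`, the direct factor of weight zero. For a
separated scheme `X` of finite type over `k` let `D.H i X` be the object of `M` given by the graded object
of the weight filtration of the cohomology with compact supports `H^i_c(X)`; for smooth projective `X` it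
is the motive `h^i(X)`. The standard properties are collected in `IsFlatMotives`: long exact sequences,
affine bundles, flat morphisms with affine spaces as fibres, `𝔾_m`, direct factors for open and closed
subschemes and for the coverings `s ^ d = u`, resolution of singularities, semisimplicity.

Let `mt N` be the Mumford-Tate conjecture at `ℓ` for the motive `N`: the identity component of the Zariski
closure of the image of the Galois group in `GL(H_ℓ(N))` is the Mumford-Tate group of `N`, base changed
to `ℚ_ℓ`. It is inherited by direct factors (hypothesis `inherit`). The equality of the closed subgroup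
schemes over `ℤ_ℓ` in question Q1 is equivalent to the equality of their generic fibres, as both are
Zariski closures of these; so question Q1 for `X` and `ℓ` is `mt (h^2(X)(1))`.

For a smooth projective surface `Y` the weight zero parts of the motives `h^i(Y)(a)` are `h^0(Y)`,
`h^2(Y)(1)` and `h^4(Y)(2)`; the first and the last are Artin motives, which do not change the identity
components of the groups. If `Y_1, …, Y_r` are smooth projective and geometrically integral of dimension
at most two (over a finite extension of `k`, components of the given ones), `⨁ h^2(Y_j)(1)` is a direct
factor of `h^2(Y_1 × ⋯ × Y_r)(1)`; and for every smooth projective geometrically integral `X` the motive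
`h^2(X)(1)` is a direct factor of `h^2(S)(1)` for a surface `S` (Lefschetz). So question Q1 (the statement
`second x` for all pairs `x` of a finite extension of `k` and a variety `X` over it, for the prime `ℓ`) is
equivalent to the Mumford-Tate conjecture for all finite direct sums of weight zero parts of Tate twists of
motives of smooth projective schemes of dimension at most two over `k`, that is to
`SumsHave D (OfProj D 2) (fun N => mt (w₀.obj N))` (hypothesis `lefschetz`).

Let `CBuilt n` be the smallest class of schemes over `k` which contains all separated schemes of finite
type of dimension at most `n` and is closed under closed-open decompositions (two out of three), certain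
affine bundles (in both directions), division by `𝔾_m` and descent along the cyclic coverings
`s ^ d = u`, and which contains with `Spec A` and the closed subscheme `f = 0` of `Spec A` the covering
`∏_{c ∈ S} (w - c) = ∑ x_l f_l` of `𝔸^m_A`, for finite non-empty sets `S ⊆ k`, and conversely, if
`|S| ≥ 2`, with `Spec A` and the covering the closed subscheme `f = 0`. There is no restriction on the
dimension of the schemes in this class.

**Theorem.** (1) For all `n` the motives `Gr^W H^i_c(X)` of all schemes `X` in `CBuilt n`, of any
dimension, are direct factors of finite direct sums of Tate twists of motives of smooth projective schemes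
of dimension at most `n`.

(2) Question Q1 for all `X` over all finite extensions of `k` (and `ℓ`) has a positive answer if and only
if the Mumford-Tate conjecture is true for all finite direct sums of weight zero parts of Tate twists of
the motives `Gr^W H^i_c(X)` of the schemes `X` in `CBuilt 2`, of any dimension.

(3) It has a positive answer if and only if the Mumford-Tate conjecture is true for all finite direct sums
of weight zero parts of Tate twists of the motives `Gr^W H^i_c(X)` of the smooth coverings
`X : ∏_{c ∈ S} (w - c) = t(x, y, z)` of affine spaces, for the trilinear forms `t` over `k` with at most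
four variables `z` (the other two blocks are arbitrary), where `S` is one fixed subset of `k` with at
least two elements; for example for the double coverings `w ^ 2 = 1 + t(x, y, z)`.

(4) For all `n` the same equivalences hold for the smooth projective schemes of dimension at most `n`, the
schemes in `CBuilt n`, and the coverings with at most `n + 2` variables `z`. (For `n = 1` the statement is
true, as the weight zero parts are Artin motives.)

(5) For all `n` the class `CBuilt n` contains the coverings `∏_{c ∈ S} (w - c) = t(x, y, z)` with at most
`n + 2` variables `z`, and the coverings `∏_{c ∈ S} (w - c) = ∑ x_l f_l(z)` of affine spaces with at most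
`n + 1` variables `z_i`, or with a scheme `f = 0` of dimension at most `n`, or with `f_1, …, f_(n+1)` of
degree at most two and all other `f_l` of degree at most one. All these coverings are smooth.
-/

set_option autoImplicit false

open CategoryTheory CategoryTheory.Limits AlgebraicGeometry Pool.Agent.Y116.UV Pool.Agent.Z125.UN
  Pool.Agent.Q193.LT Pool.Agent.H95.DC Pool.Agent.H95.WC Pool.Agent.H95.HC

universe v u

namespace Pool.Agent.Results.MP_6369ef_ag.CoveringsOfAffineSpaces

/-- **The Mumford-Tate conjecture for `H^2` and coverings of affine spaces.** See the explanations
above. -/
theorem result {k : Type} [Field k] [CharZero k] (_hk : (⊤ : Subfield k).FG) {M : Type u}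
    [Category.{v} M] [Abelian M] {D : CompactData k M} (h : IsFlatMotives D) {w₀ : M ⥤ M}
    {mt : M → Prop}
    (inherit : ∀ {N N' : M} (i : N ⟶ N') (r : N' ⟶ N), i ≫ r = 𝟙 N → mt N' → mt N)
    {V : Type 1} {second : V → Prop}
    (lefschetz : (∀ x, second x) ↔ SumsHave D (OfProj D 2) fun N => mt (w₀.obj N)) :
    (∀ n : ℕ, ∀ X : Sch k, CBuilt n X → ∀ i, FactorOfSum D (OfProj D n) (D.H i X)) ∧
    ((∀ x, second x) ↔ SumsHave D (OfBuilt D 2) fun N => mt (w₀.obj N)) ∧
    (∀ S : Finset k, 2 ≤ S.card →
      ((∀ x, second x) ↔ SumsHave D (OfCoverings D S 4) fun N => mt (w₀.obj N))) ∧
    (∀ n : ℕ, (SumsHave D (OfProj D n) (fun N => mt (w₀.obj N)) ↔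
        SumsHave D (OfBuilt D n) fun N => mt (w₀.obj N)) ∧
      ∀ S : Finset k, 2 ≤ S.card → (SumsHave D (OfProj D n) (fun N => mt (w₀.obj N)) ↔
        SumsHave D (OfCoverings D S (n + 2)) fun N => mt (w₀.obj N))) ∧
    CovMembers k := by
  have hP : ∀ {X Y : M} (i : X ⟶ Y) (r : Y ⟶ X), i ≫ r = 𝟙 X →
      mt (w₀.obj Y) → mt (w₀.obj X) := fun i r hir hN =>
    inherit (w₀.map i) (w₀.map r) (by rw [← w₀.map_comp, hir, w₀.map_id]) hN
  exact ⟨fun n X hX i => built_factor h hX i, lefschetz.trans (sums_built hP h 2),
    fun S hS => lefschetz.trans (sums_coverings hP h hS 2),
    fun n => ⟨sums_built hP h n, fun S hS => sums_coverings hP h hS n⟩, covMembers⟩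

end Pool.Agent.Results.MP_6369ef_ag.CoveringsOfAffineSpaces
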