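import Pool.Agent.H95.FM.Main

/-!
# The Mumford-Tate conjecture for `H^2`, torus actions and equations with few monomials

Let `k` be a field finitely generated over `ℚ`, with an embedding in `ℂ`, and `ℓ` a prime number. Let `M`
be the category of motives over `k` in the sense of André, a semisimple abelian category with Tate twists
`N ↦ N(a)`, and let `w₀ : M ⥤ M` be the functor `N ↦ Gr^W_0 N`, the direct factor of weight zero. For a
separated scheme `X` of finite type over `k` let `D.H i X` be the object of `M` given by the graded object
of the weight filtration of the cohomology with compact supports `H^i_c(X)`; for smooth projective `X` it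
is the motive `h^i(X)`. The standard properties are collected in `IsMotives`.

Let `mt N` be the Mumford-Tate conjecture at `ℓ` for the motive `N`: the identity component of the Zariski
closure of the image of the Galois group in `GL(H_ℓ(N))` is the Mumford-Tate group of `N`, base changed
to `ℚ_ℓ`. It is inherited by direct factors (hypothesis `Inherit`). The equality of the closed subgroup
schemes over `ℤ_ℓ` in question Q1 is equivalent to the equality of their generic fibres, as both are
Zariski closures of these; so question Q1 for `X` and `ℓ` is `mt (h^2(X)(1))`.

For a smooth projective surface `Y` the weight zero parts of the motives `h^i(Y)(a)` are `h^0(Y)`,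
`h^2(Y)(1)` and `h^4(Y)(2)`; the first and the last are Artin motives, which do not change the identity
components of the groups. If `Y_1, …, Y_r` are smooth projective and geometrically integral of dimension
at most two (over a finite extension of `k`, components of the given ones), `⨁ h^2(Y_j)(1)` is a direct
factor of `h^2(Y_1 × ⋯ × Y_r)(1)`; and for every smooth projective geometrically integral `X` the motive
`h^2(X)(1)` is a direct factor of `h^2(S)(1)` for a surface `S` (Lefschetz). So question Q1 (the statement
`second x` for all pairs `x` of a finite extension of `k` and a variety `X` over it, for the prime `ℓ`) is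
equivalent to the Mumford-Tate conjecture for all finite direct sums of weight zero parts of Tate twists of
motives of smooth projective schemes of dimension at most two over `k`, that is to
`SumsHave D (OfProj D 2) (fun N => mt (w₀.obj N))` (hypothesis `lefschetz`).

Let `X` be a closed subscheme of an affine space which is stable under a torus acting diagonally. It is
of complexity at most `n` if each stratum of `X` (given by the vanishing and non-vanishing of the
coordinates) has dimension at most `n` plus the dimension of the orbits of the torus in the stratum.
There is no restriction on the dimension and on the singularities of `X`. Let `𝒢` be any class of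
schemes. Let `Made 𝒢 n` be the smallest class of schemes which contains `𝒢` and the torus schemes of
complexity at most `n`, and which contains each one of `X`, `Z`, `U` with the other two, for the closed
subschemes `Z` of separated schemes `X` of finite type with complement `U`.

**Theorem.** (1) Question Q1 for all `X` over all finite extensions of `k` (and `ℓ`) has a positive answer if
and only if the Mumford-Tate conjecture is true for all finite direct sums of weight zero parts of Tate
twists of the motives `Gr^W H^i_c(X)` of the schemes `X` in `Made ∅ 2`, of any dimension.

(2) For all `n` and `𝒢` the conjecture is true for all finite direct sums of weight zero parts of Tate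
twists of motives of the smooth projective schemes of dimension at most `n` and of the schemes in `𝒢`, if
and only if it is true for those of the schemes in `Made 𝒢 n`. (For `n = 1` the weight zero parts of the
motives of the first kind are Artin motives.)

(3) *Finitely many varieties.* Let `Q` be a class of smooth proper irreducible schemes over `k` such that
the varieties of dimension at most `n` have models in `Q`. For every `X` in `Made 𝒢 n`, of any dimension,
there is a finite list of schemes `Y`, each of which belongs to `𝒢`, or to `Q` and has dimension at most
`n`, and which depends only on `X`, such that for all categories of motives the Mumford-Tate conjecture for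
the finite direct sums of weight zero parts of Tate twists of motives `Gr^W H^j_c(Y)` (and of the point)
implies the conjecture for those of `X`, in particular question Q1 for `X` if `X` is smooth and projective
and geometrically integral. So if `X` is in `Made 𝒢 1`, only varieties in `𝒢` and curves are needed, and
the weight zero parts of the motives of curves are Artin motives.

(4) `Made 𝒢 n` contains the schemes given by `c` linearly independent equations which have together
at most `c + n + 1` monomials, and by any number of additional equations with at most two terms, in
an affine space of arbitrary dimension (`Sparse n`), and the inverse images of the cones of dimension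
at most `n + 1` under all monomial maps between affine spaces, also with additional equations with at
most two terms (`Cones n`). (This is known from earlier work.)
-/

set_option autoImplicit false

open CategoryTheory CategoryTheory.Limits AlgebraicGeometry Pool.Agent.Y116.UV Pool.Agent.Q193.LT
  Pool.Agent.H39.Mot Pool.Agent.H95.FM Pool.Agent.W5h68.SP
open Pool.Agent.H89.Dev (IsClass ModelsIn)

universe v u

namespace Pool.Agent.Results.MP_6369ef_ag.FewMonomials

/-- The conjecture is inherited by direct factors. -/
def Inherit {M : Type u} [Category.{v} M] (mt : M → Prop) : Prop :=
  ∀ {N N' : M} (i : N ⟶ N') (r : N' ⟶ N), i ≫ r = 𝟙 N → mt N' → mt N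

lemma inherit_w {M : Type u} [Category.{v} M] {mt : M → Prop} (h : Inherit mt) (w₀ : M ⥤ M) :
    Inherit fun N => mt (w₀.obj N) := fun i r hir hN =>
  h (w₀.map i) (w₀.map r) (by rw [← w₀.map_comp, hir, w₀.map_id]) hN

/-- **The Mumford-Tate conjecture for `H^2`, torus actions of small complexity and equations with few
monomials.** See the explanations above. -/
theorem result (k : Type) [Field k] [CharZero k] (_hk : (⊤ : Subfield k).FG) (𝒢 : Sch k → Prop) :
    (∀ (M : Type u) [Category.{v} M] [Abelian M] (D : CompactData k M), IsMotives D →
      ∀ (w₀ : M ⥤ M) (mt : M → Prop), Inherit mt →
        (∀ (V : Type 1) (second : V → Prop),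
          (lefschetz : (∀ x, second x) ↔ SumsHave D (OfProj D 2) fun N => mt (w₀.obj N)) →
          ((∀ x, second x) ↔
            SumsHave D (Of D (Made (fun _ => False) 2)) fun N => mt (w₀.obj N))) ∧
        ∀ n : ℕ, SumsHave D (Of D (SmallOr n 𝒢)) (fun N => mt (w₀.obj N)) ↔
          SumsHave D (Of D (Made 𝒢 n)) fun N => mt (w₀.obj N)) ∧
    (∀ Q : Sch k → Prop, IsClass Q → ∀ n : ℕ, ModelsIn Q n → ∀ X : Sch k, Made 𝒢 n X →
      ∃ 𝒴 : List (Sch k), (∀ Y ∈ 𝒴, (Q Y ∧ topologicalKrullDim Y.left ≤ n) ∨ 𝒢 Y) ∧
        ∀ (M : Type u) [Category.{v} M] [Abelian M] (D : CompactData k M), IsCompact D →
          Semisimple M → ∀ (w₀ : M ⥤ M) (mt : M → Prop), Inherit mt →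
            SumsHave D (Of D (InList 𝒴)) (fun N => mt (w₀.obj N)) →
              SumsHave D (Of D fun X' => X' = X) fun N => mt (w₀.obj N)) ∧
    ∀ n : ℕ, Sparse (k := k) n (Made 𝒢 n) ∧ Cones (k := k) n (Made 𝒢 n) := by
  refine ⟨fun M _ _ D h w₀ mt inherit => ⟨fun V second lefschetz => ?_, fun n => ?_⟩,
    fun Q hQ n hM X hX => ?_, fun n => ⟨sparse_made 𝒢 n, cones_made 𝒢 n⟩⟩
  · rw [lefschetz, ← sums_made_iff h (inherit_w inherit w₀) (fun _ => False) 2]
    have e : Of D (SmallOr 2 fun _ : Sch k => False) = OfProj D 2 := by
      funext N
      refine propext ⟨?_, ?_⟩
      · rintro ⟨Y, i, ⟨hY, hn⟩ | hY, rfl⟩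
        · exact ⟨Y, i, hY, hn, rfl⟩
        · exact hY.elim
      · rintro ⟨Y, i, hY, hn, rfl⟩
        exact ⟨Y, i, Or.inl ⟨hY, hn⟩, rfl⟩
    rw [e]
  · exact sums_made_iff h (inherit_w inherit w₀) 𝒢 n
  · obtain ⟨L, h1, h2⟩ := fin_motives.{v, u} hQ hM 𝒢 X hX
    refine ⟨L, h1, fun M _ _ D hD hss w₀ mt inherit h => ?_⟩
    refine sumsHave_of_gen hD hss (inherit_w inherit w₀) (fun N hN => ?_) h
    obtain ⟨X', i, rfl, rfl⟩ := hN
    exact h2 M D hD hss i

end Pool.Agent.Results.MP_6369ef_ag.FewMonomials
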