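import Pool.Agent.H9.LG.Motives

/-!
# The Mumford-Tate conjecture for `H^2` and labelled graphs of maximal degree three

Let `k` be a field finitely generated over `ℚ`, with an embedding in `ℂ`, and `ℓ` a prime number. Let `G`
be a finite bipartite graph of maximal degree at most three, whose edges are labelled by elements of `k`
and by variables `x_1, …, x_d` (`LabelledGraph k d`). Its adjacency matrix `G.adj` is a symmetric matrix of
labels and zeros, with at most three elements different from zero in each row, and `G.scheme` is the open
subscheme of the affine space of dimension `d` where this matrix is invertible. (Up to a sign the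
determinant is the square of the signed sum over the perfect matchings of `G` of the products of the
labels of the edges.)

Let `M` be the category of motives over `k` in the sense of André, a semisimple abelian category with Tate
twists `N ↦ N(a)`, and let `w₀ : M ⥤ M` be the functor `N ↦ Gr^W_0 N`, the direct factor of weight zero.
For a separated scheme `X` of finite type over `k` let `D.H i X` be the object of `M` given by the graded
object of the weight filtration of the cohomology with compact supports `H^i_c(X)`; for smooth projective
`X` it is the motive `h^i(X)`. The standard properties are collected in `IsMotives`: long exact sequences,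
affine bundles, `𝔾_m`, resolution of singularities, semisimplicity.

Let `mt N` be the Mumford-Tate conjecture at `ℓ` for the motive `N`: the identity component of the Zariski
closure of the image of the Galois group in `GL(H_ℓ(N))` is the Mumford-Tate group of `N`, base changed
to `ℚ_ℓ`. It is inherited by direct factors (hypothesis `inherit`). The equality of the closed subgroup
schemes over `ℤ_ℓ` in question Q1 is equivalent to the equality of their generic fibres, as both are
Zariski closures of these; so question Q1 for `X` and `ℓ` is `mt (h^2(X)(1))`.

For a smooth projective surface `Y` the weight zero parts of the motives `h^i(Y)(a)` are `h^0(Y)`,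
`h^2(Y)(1)` and `h^4(Y)(2)`; the first and the last are Artin motives, which do not change the identity
components of the groups. If `Y_1, …, Y_r` are smooth projective and geometrically integral of dimension
at most two (over a finite extension of `k`, components of the given ones), `⨁ h^2(Y_j)(1)` is a direct
factor of `h^2(Y_1 × ⋯ × Y_r)(1)`; and for every smooth projective geometrically integral `X` the motive
`h^2(X)(1)` is a direct factor of `h^2(S)(1)` for a surface `S` (Lefschetz). So question Q1 (the statement
`second x` for all pairs `x` of a finite extension of `k` and a variety `X` over it, for the prime `ℓ`) is
equivalent to the Mumford-Tate conjecture for all finite direct sums of weight zero parts of Tate twists of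
motives of smooth projective schemes of dimension at most two over `k`, that is to
`SumsHave D (OfProj D 2) (fun N => mt (w₀.obj N))` (hypothesis `lefschetz`).

**Theorem.** (1) Question Q1 for all `X` over all finite extensions of `k` (and `ℓ`) has a positive answer
if and only if the Mumford-Tate conjecture is true for all finite direct sums of weight zero parts of Tate
twists of the motives `Gr^W H^i_c(G.scheme)` of the open subschemes `G.scheme` of the affine space of
dimension three, for the labelled bipartite graphs `G` of maximal degree at most three with three
variables `x_1, x_2, x_3`. If `k = ℚ` it is enough to consider the graphs whose edges are labelled by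
`1, x_1, x_2, x_3`.

(2) For all `n` the same equivalence holds for the smooth projective schemes of dimension at most `n` and
the labelled graphs with `n + 1` variables.

(3) For all `n` the motives `Gr^W H^i_c(X)` of the separated schemes of finite type of dimension at most
`n` (for smooth projective `X`: the motives `h^i(X)`) are direct factors of finite direct sums of Tate
twists of motives `Gr^W H^j_c(G.scheme)`, for labelled graphs `G` with `n + 1` variables; so finitely many
graphs are enough for each `X`. The motives `Gr^W H^i_c(G.scheme)` of these graphs are direct factors of
finite direct sums of Tate twists of motives of smooth projective schemes of dimension at most `n`.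

The construction of matrices with at most three elements different from zero in each row and column, with
a given polynomial as determinant (a sparse form of the theorem of Valiant) is in the starting library
(`MP_fc2ced_ag.SparseLinearSections`); the graph is the bipartite graph of such a matrix.
-/

set_option autoImplicit false

open CategoryTheory CategoryTheory.Limits AlgebraicGeometry Pool.Agent.Y116.UV Pool.Agent.Q193.LT
  Pool.Agent.H9.LG

universe v u

namespace Pool.Agent.Results.MP_6369ef_ag.LabelledGraphs

/-- **The Mumford-Tate conjecture for `H^2` and labelled graphs of maximal degree three.** See the
explanations above. -/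
theorem result {k : Type} [Field k] [CharZero k] (_hk : (⊤ : Subfield k).FG) {M : Type u}
    [Category.{v} M] [Abelian M] {D : CompactData k M} (h : IsMotives D) {w₀ : M ⥤ M}
    {mt : M → Prop}
    (inherit : ∀ {N N' : M} (i : N ⟶ N') (r : N' ⟶ N), i ≫ r = 𝟙 N → mt N' → mt N)
    {V : Type 1} {second : V → Prop}
    (lefschetz : (∀ x, second x) ↔ SumsHave D (OfProj D 2) fun N => mt (w₀.obj N)) :
    ((∀ x, second x) ↔ SumsHave D (OfLabelled D 3) fun N => mt (w₀.obj N)) ∧
    (∀ n : ℕ, SumsHave D (OfProj D n) (fun N => mt (w₀.obj N)) ↔
      SumsHave D (OfLabelled D (n + 1)) fun N => mt (w₀.obj N)) ∧
    (∀ (n : ℕ) (X : Sch k), FT True X → topologicalKrullDim X.left ≤ n → ∀ i,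
      FactorOfSum D (OfLabelled D (n + 1)) (D.H i X)) ∧
    ∀ (n : ℕ) (G : LabelledGraph k (n + 1)) (i : ℤ), FactorOfSum D (OfProj D n)
      (D.H i G.scheme) := by
  have hP : ∀ {X Y : M} (i : X ⟶ Y) (r : Y ⟶ X), i ≫ r = 𝟙 X →
      mt (w₀.obj Y) → mt (w₀.obj X) := fun i r hir hN =>
    inherit (w₀.map i) (w₀.map r) (by rw [← w₀.map_comp, hir, w₀.map_id]) hN
  exact ⟨lefschetz.trans (sums_labelled hP h 2), fun n => sums_labelled hP h n,
    fun n X hX hn i => labelled_factor h hX hn i, fun n G i => graph_factor h G i⟩

end Pool.Agent.Results.MP_6369ef_ag.LabelledGraphs
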