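import Pool.Agent.H95.QF.Main

/-!
# The Mumford-Tate conjecture for `H^2` and systems of quadratic equations

Let `k` be a field finitely generated over `ℚ`, with an embedding in `ℂ`, and `ℓ` a prime number. Let `M`
be the category of motives over `k` in the sense of André, a semisimple abelian category with Tate twists
`N ↦ N(a)`, and let `w₀ : M ⥤ M` be the functor `N ↦ Gr^W_0 N`, the direct factor of weight zero. For a
separated scheme `X` of finite type over `k` let `D.H i X` be the object of `M` given by the graded object
of the weight filtration of the cohomology with compact supports `H^i_c(X)`; for smooth projective `X` it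
is the motive `h^i(X)`. The standard properties are collected in `IsCyclicMotives`: long exact sequences,
affine bundles, `𝔾_m`, direct factors for the coverings `s ^ d = u`, resolution of singularities,
semisimplicity.

Let `mt N` be the Mumford-Tate conjecture at `ℓ` for the motive `N`: the identity component of the Zariski
closure of the image of the Galois group in `GL(H_ℓ(N))` is the Mumford-Tate group of `N`, base changed
to `ℚ_ℓ`. It is inherited by direct factors (hypothesis `inherit`). The equality of the closed subgroup
schemes over `ℤ_ℓ` in question Q1 is equivalent to the equality of their generic fibres, as both are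
Zariski closures of these; so question Q1 for `X` and `ℓ` is `mt (h^2(X)(1))`.

For a smooth projective surface `Y` the weight zero parts of the motives `h^i(Y)(a)` are `h^0(Y)`,
`h^2(Y)(1)` and `h^4(Y)(2)`; the first and the last are Artin motives, which do not change the identity
components of the groups. If `Y_1, …, Y_r` are smooth projective and geometrically integral of dimension
at most two (over a finite extension of `k`, components of the given ones), `⨁ h^2(Y_j)(1)` is a direct
factor of `h^2(Y_1 × ⋯ × Y_r)(1)`; and for every smooth projective geometrically integral `X` the motive
`h^2(X)(1)` is a direct factor of `h^2(S)(1)` for a surface `S` (Lefschetz). So question Q1 (the statement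
`second x` for all pairs `x` of a finite extension of `k` and a variety `X` over it, for the prime `ℓ`) is
equivalent to the Mumford-Tate conjecture for all finite direct sums of weight zero parts of Tate twists of
motives of smooth projective schemes of dimension at most two over `k`, that is to
`SumsHave D (OfProj D 2) (fun N => mt (w₀.obj N))` (hypothesis `lefschetz`).

Let `Built k n` be the smallest class of schemes which contains the affine schemes of dimension at most
`n` and is closed under closed-open decompositions (two out of three), affine bundles (in both
directions), division by `𝔾_m` and descent along the coverings `s ^ d = u`, `u` a unit. There is no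
restriction on the dimension of the schemes in this class.

**Theorem.** (1) For all `n` the motives `Gr^W H^i_c(X)` of all schemes `X` in `Built k n`, of any
dimension, are direct factors of finite direct sums of Tate twists of motives of smooth projective schemes
of dimension at most `n`.

(2) Question Q1 for all `X` over all finite extensions of `k` (and `ℓ`) has a positive answer if and only
if the Mumford-Tate conjecture is true for all finite direct sums of weight zero parts of Tate twists of
the motives `Gr^W H^i_c(X)` of the schemes `X` in `Built k 2`, of any dimension.

(3) It has a positive answer if the Mumford-Tate conjecture is true for all finite direct sums of weight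
zero parts of Tate twists of the motives `Gr^W H^i_c(X)` of the affine schemes `X` given by **four**
equations of degree at most two, in any number of variables.

(4) For all `n` the same holds for the smooth projective schemes of dimension at most `n`, the schemes in
`Built k n`, and `n + 2` quadratic equations.

(5) The class `Built k n` contains all schemes given by `r + 1` quadratic equations and any number of
linear equations in any number of variables over an affine base `Spec A`, if `dim A + r ≤ n`. It contains
all closed subschemes of projective spaces which are the intersection of `n + 1` quadrics and hyperplanes.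
So question Q1 implies the conjecture for the weight zero parts of the sums of twists of the cohomology of
all systems of **three** quadratic and any linear equations, and of all intersections of three quadrics in
projective spaces, with arbitrary singularities.
-/

set_option autoImplicit false

open CategoryTheory CategoryTheory.Limits AlgebraicGeometry Pool.Agent.Y116.UV Pool.Agent.Z125.UN
  Pool.Agent.Q193.LT Pool.Agent.H91.QS Pool.Agent.H95.QF

universe v u

namespace Pool.Agent.Results.MP_6369ef_ag.QuadraticSystems

/-- **The Mumford-Tate conjecture for `H^2` and systems of quadratic equations.** See the explanations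
above. -/
theorem result {k : Type} [Field k] [CharZero k] (_hk : (⊤ : Subfield k).FG) {M : Type u}
    [Category.{v} M] [Abelian M] {D : CompactData k M} (h : IsCyclicMotives D) {w₀ : M ⥤ M}
    {mt : M → Prop}
    (inherit : ∀ {N N' : M} (i : N ⟶ N') (r : N' ⟶ N), i ≫ r = 𝟙 N → mt N' → mt N)
    {V : Type 1} {second : V → Prop}
    (lefschetz : (∀ x, second x) ↔ SumsHave D (OfProj D 2) fun N => mt (w₀.obj N)) :
    (∀ n : ℕ, ∀ X : Sch k, Built k n X → ∀ i, FactorOfSum D (OfProj D n) (D.H i X)) ∧
    ((∀ x, second x) ↔ SumsHave D (Of D (Built k 2)) fun N => mt (w₀.obj N)) ∧
    (SumsHave D (Of D (IsQuadratic 4)) (fun N => mt (w₀.obj N)) → ∀ x, second x) ∧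
    (∀ n : ℕ, (SumsHave D (OfProj D n) (fun N => mt (w₀.obj N)) ↔
        SumsHave D (Of D (Built k n)) fun N => mt (w₀.obj N)) ∧
      (SumsHave D (Of D (IsQuadratic (n + 2))) (fun N => mt (w₀.obj N)) →
        SumsHave D (OfProj D n) fun N => mt (w₀.obj N))) ∧
    ∀ n : ℕ, AffineQuadrics k n (Built k n) ∧ ProjectiveQuadrics k n (Built k n) := by
  have hP : ∀ {X Y : M} (i : X ⟶ Y) (r : Y ⟶ X), i ≫ r = 𝟙 X →
      mt (w₀.obj Y) → mt (w₀.obj X) := fun i r hir hN =>
    inherit (w₀.map i) (w₀.map r) (by rw [← w₀.map_comp, hir, w₀.map_id]) hN
  have two : (2 : k) ≠ 0 := two_ne_zero
  exact ⟨fun n X hX i => built_factor h hX i, lefschetz.trans (sums_built hP h 2),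
    fun hs => lefschetz.mpr (sums_quadratic hP h 2 hs),
    fun n => ⟨sums_built hP h n, sums_quadratic hP h n⟩,
    fun n => ⟨affineQuadrics_built two n, projectiveQuadrics_built two n⟩⟩

end Pool.Agent.Results.MP_6369ef_ag.QuadraticSystems
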